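import Pool.Agent.helper35.LV.Spec

/-!
# Row lv:UNI (MP_a2a22c_al): the unipotent elements of a basis
-/

set_option autoImplicit false

namespace Pool.Agent.LV

open Matrix Pool.Agent.H48SL Pool.Agent.UG

theorem UNI_cases : ∀ i j k : Fin 3, i ≠ j → j ≠ k → i ≠ k → ∀ l : Fin 3, l = i ∨ l = j ∨ l = k := by
  decide

theorem UNI_single (A : MQ 3) (i j : Fin 3) (r : ℚ) (p l : Fin 3) :
    (A * Matrix.single i j r) p l = if l = j then A p i * r else 0 := by
  rw [Matrix.mul_apply]
  by_cases hl : l = j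
  · subst hl
    rw [if_pos rfl, Finset.sum_eq_single i]
    · simp
    · intro b _ hb
      rw [Matrix.single_apply]
      rw [if_neg (fun h => hb h.1.symm), mul_zero]
    · intro h; exact absurd (Finset.mem_univ i) h
  · rw [if_neg hl]
    refine Finset.sum_eq_zero fun b _ => ?_
    rw [Matrix.single_apply, if_neg (fun h => hl h.2.symm), mul_zero]

theorem UNI_vmv (x y : Fin 3 → ℚ) (A : MQ 3) (p l : Fin 3) :
    (vecMulVec x y * A) p l = x p * (y ⬝ᵥ fun q => A q l) := by
  rw [Matrix.mul_apply, dotProduct, Finset.mul_sum]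
  exact Finset.sum_congr rfl fun q _ => by rw [vecMulVec_apply]; ring

theorem UNI : UNI_stmt := by
  intro H F hF i j k hij hjk hik hPV
  have hadj : ∀ l, (F.adjugate k) ⬝ᵥ (fun p => F p l) = if k = l then F.det else 0 := by
    intro l
    have h1 : (F.adjugate * F) k l = (F.det • (1 : Matrix (Fin 3) (Fin 3) ℤ)) k l := by
      rw [Matrix.adjugate_mul]
    rw [Matrix.mul_apply] at h1
    rw [dotProduct, h1, Matrix.smul_apply, Matrix.one_apply, smul_eq_mul]
    split_ifs <;> simp
  obtain ⟨jj, hjj, h, hh, β, hβ, hq⟩ := hPV (fun p => F p j) (F.adjugate k)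
    (by rw [hadj, if_neg hik.symm]) (by rw [hadj, if_neg hjk.symm])
  set F' : MQ 3 := F.map (Int.cast : ℤ → ℚ) with hF'
  have hcol : ∀ l, castV (fun p => F p l) = fun p => F' p l := by
    intro l; funext p; rfl
  have hψ : ∀ l, (castV (F.adjugate k)) ⬝ᵥ (fun q => F' q l) = if k = l then (F.det : ℚ) else 0 := by
    intro l
    rw [← hcol, castV_dot, hadj]
    split_ifs <;> simp
  refine ⟨h, hh, β ⬝ᵥ (fun q => F' q j), (jj : ℚ) * F.det, β ⬝ᵥ (fun q => F' q k), ?_, ?_⟩
  · have h1 : (jj : ℚ) ≠ 0 := by exact_mod_cast (by omega : jj ≠ 0)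
    exact mul_ne_zero h1 (by exact_mod_cast hF)
  · ext p l
    rw [hq, add_mul, add_mul, one_mul, Matrix.add_apply, Matrix.add_apply, UNI_vmv, UNI_vmv, hψ]
    unfold nn
    rw [mul_add, mul_add, mul_add, mul_one, Matrix.add_apply, Matrix.add_apply, Matrix.add_apply,
      UNI_single, UNI_single, UNI_single]
    have hx : ((jj : ℚ) • castV (fun p => F p j)) p = jj * F' p j := rfl
    have hv : castV (fun p => F p i) p = F' p i := rfl
    rw [hx, hv]
    have hβi : β ⬝ᵥ (fun q => F' q i) = 0 := hβ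
    rcases UNI_cases i j k hij hjk hik l with hl | hl | hl
    · subst hl
      rw [if_neg hik.symm, if_neg hij, if_neg hik, hβi, if_neg hik]; ring
    · subst hl
      rw [if_neg hjk.symm, if_pos rfl, if_neg hjk, if_neg hjk]; ring
    · subst hl
      rw [if_pos rfl, if_neg hjk.symm, if_pos rfl, if_pos rfl]; ring

end Pool.Agent.LV
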